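import Mathlib
import Pool.Agent.Lib.MP_0ad9bc_an.Part8

/-!
Transitive symmetric lexicographic subshifts are entropy minimal.
-/

namespace Pool.Agent.Results.MP_0ad9bc_an.EntropyMinimal

open Filter Topology Pool.Agent.Lib.MP_0ad9bc_an

/-- One-sided sequences over the alphabet `0, 1, ..., M`. -/
abbrev Seq (M : ℕ) : Type := ℕ → Fin (M + 1)

variable {M : ℕ}

/-- The left shift. -/
def shift (x : Seq M) : Seq M := fun i => x (i + 1)

/-- The reflection of a sequence: the letter `a` is replaced by `M - a`. -/
def reflect (x : Seq M) : Seq M := fun i => (x i).rev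

/-- The lexicographic order. -/
def LexLE (x y : Seq M) : Prop := x = y ∨ ∃ n, (∀ i < n, x i = y i) ∧ x n < y n

/-- The set of all `x` such that `reflect α ≤ σ ^ n x ≤ α` for all `n`. -/
def V (α : Seq M) : Set (Seq M) :=
  {x | ∀ n : ℕ, LexLE (reflect α) (shift^[n] x) ∧ LexLE (shift^[n] x) α}

/-- The word `u` occurs in a point of `Y`. -/
def Occurs (Y : Set (Seq M)) (u : List (Fin (M + 1))) : Prop :=
  ∃ x ∈ Y, ∃ k : ℕ, u = (List.range u.length).map (fun i => x (k + i))

/-- The set of words of length `n` which occur in points of `Y`. -/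
def B (Y : Set (Seq M)) (n : ℕ) : Set (List (Fin (M + 1))) := {u | u.length = n ∧ Occurs Y u}

/-- `Y` is transitive. -/
def IsTransitive (Y : Set (Seq M)) : Prop :=
  ∀ u w, Occurs Y u → Occurs Y w → ∃ v, Occurs Y (u ++ v ++ w)

/-- Nonempty closed shift-invariant sets (product topology of the discrete topologies). -/
def IsSubshift (X : Set (Seq M)) : Prop := X.Nonempty ∧ IsClosed X ∧ ∀ x ∈ X, shift x ∈ X

/-- The limit defining the topological entropy of `Y` exists and equals `h`. -/
def HasEntropy (Y : Set (Seq M)) (h : ℝ) : Prop :=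
  Tendsto (fun n : ℕ => Real.log ((B Y n).ncard : ℝ) / n) atTop (𝓝 h)

/-- Every proper subshift has strictly smaller entropy. -/
def IsEntropyMinimal (Y : Set (Seq M)) : Prop :=
  ∀ X : Set (Seq M), IsSubshift X → X ⊂ Y →
    ∃ hX hY : ℝ, HasEntropy X hX ∧ HasEntropy Y hY ∧ hX < hY

lemma shift_iter (n : ℕ) (x : Seq M) (i : ℕ) : (shift^[n] x) i = x (n + i) := by
  induction n generalizing x with
  | zero => simp
  | succ n ih =>
    rw [Function.iterate_succ_apply, ih, shift]
    congr 1; omega

lemma lexLE_iff {x y : Seq M} : LexLE x y ↔ ∀ n, (∀ i < n, x i = y i) → x n ≤ y n := by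
  constructor
  · rintro (rfl | ⟨m, h1, h2⟩) n hn
    · exact le_rfl
    · rcases lt_trichotomy n m with h | h | h
      · exact (h1 n h).le
      · subst h; exact h2.le
      · rw [hn m h] at h2
        exact absurd h2 (lt_irrefl _)
  · intro h
    by_cases hxy : x = y
    · exact Or.inl hxy
    · right
      classical
      have hex : ∃ n, x n ≠ y n := by
        by_contra hcon
        push Not at hcon
        exact hxy (funext hcon)
      refine ⟨Nat.find hex, fun i hi => ?_, ?_⟩
      · have := Nat.find_min hex hi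
        push Not at this
        exact this
      · refine lt_of_le_of_ne (h _ fun i hi => ?_) (Nat.find_spec hex)
        have := Nat.find_min hex hi
        push Not at this
        exact this

lemma LexLE.trans {x y z : Seq M} (h1 : LexLE x y) (h2 : LexLE y z) : LexLE x z := by
  rw [lexLE_iff] at h1 h2 ⊢
  intro n hn
  have key : ∀ i, i < n → x i = y i := by
    intro i
    induction i using Nat.strong_induction_on with
    | _ i ih =>
      intro hi
      have a1 := h1 i (fun j hj => ih j hj (by omega))
      have a2 := h2 i (fun j hj => by rw [← ih j hj (by omega)]; exact hn j (by omega))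
      exact le_antisymm a1 (by rw [hn i hi]; exact a2)
  exact (h1 n key).trans (h2 n fun i hi => by rw [← key i hi]; exact hn i hi)

lemma LexLE.reflect {x y : Seq M} (h : LexLE x y) :
    LexLE (EntropyMinimal.reflect y) (EntropyMinimal.reflect x) := by
  rw [lexLE_iff] at h ⊢
  intro n hn
  have := h n (fun i hi => by
    have := hn i hi
    simp only [EntropyMinimal.reflect, Fin.rev_inj] at this
    exact this.symm)
  simpa [EntropyMinimal.reflect] using this

lemma reflect_reflect (x : Seq M) : reflect (reflect x) = x := by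
  funext i; simp [reflect]

lemma mem_V {α x : Seq M} : x ∈ V α ↔ ∀ k, LexLE (reflect α) (fun i => x (k + i)) ∧
    LexLE (fun i => x (k + i)) α := by
  have h : ∀ k, shift^[k] x = fun i => x (k + i) := fun k => funext fun i => shift_iter k x i
  simp only [V, Set.mem_ofPred_eq, h]

lemma V_shift {α x : Seq M} (hx : x ∈ V α) (k : ℕ) : (fun i => x (k + i)) ∈ V α := by
  rw [mem_V] at hx ⊢
  intro j
  have := hx (k + j)
  simpa [Nat.add_assoc] using this

lemma V_reflect {α x : Seq M} (hx : x ∈ V α) : reflect x ∈ V α := by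
  rw [mem_V] at hx ⊢
  intro k
  obtain ⟨h1, h2⟩ := hx k
  refine ⟨h2.reflect, ?_⟩
  have := h1.reflect
  rwa [reflect_reflect] at this

lemma V_approx {α b : Seq M} (h : ∀ n, ∃ x ∈ V α, ∀ i < n, x i = b i) : b ∈ V α := by
  rw [mem_V]
  intro k
  constructor
  · rw [lexLE_iff]
    intro n hn
    obtain ⟨x, hx, hxb⟩ := h (k + n + 1)
    have h1 := ((mem_V.mp hx) k).1
    rw [lexLE_iff] at h1
    have h2 := h1 n (fun i hi => by rw [hn i hi]; exact (hxb _ (by omega)).symm)
    rw [← hxb (k + n) (by omega)]
    exact h2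
  · rw [lexLE_iff]
    intro n hn
    obtain ⟨x, hx, hxb⟩ := h (k + n + 1)
    have h1 := ((mem_V.mp hx) k).2
    rw [lexLE_iff] at h1
    have h2 := h1 n (fun i hi => by rw [← hn i hi]; exact hxb _ (by omega))
    rw [← hxb (k + n) (by omega)]
    exact h2

lemma exists_max {α : Seq M} (hne : (V α).Nonempty) : ∃ b ∈ V α, ∀ x ∈ V α, LexLE x b := by
  have step : ∀ (n : ℕ) (x : V α), ∃ x' : V α, (∀ i < n, x'.1 i = x.1 i) ∧
      ∀ y ∈ V α, (∀ i < n, y i = x.1 i) → y n ≤ x'.1 n := by
    intro n x
    obtain ⟨c, ⟨y, hy, hy1, hy2⟩, hc⟩ := Set.exists_max_image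
      {c : Fin (M + 1) | ∃ y ∈ V α, (∀ i < n, y i = x.1 i) ∧ y n = c} id (Set.toFinite _)
      ⟨x.1 n, x.1, x.2, fun _ _ => rfl, rfl⟩
    refine ⟨⟨y, hy⟩, hy1, fun z hz hz1 => ?_⟩
    have := hc (z n) ⟨z, hz, hz1, rfl⟩
    simp only [id] at this
    rw [← hy2] at this
    exact this
  choose f hf1 hf2 using step
  obtain ⟨x0, hx0⟩ := hne
  set X : ℕ → V α := fun n => Nat.rec ⟨x0, hx0⟩ (fun n x => f n x) n with hX
  have hXs : ∀ n, X (n + 1) = f n (X n) := fun n => rfl
  have hagree : ∀ n, ∀ i < n, (X n).1 i = (X (i + 1)).1 i := by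
    intro n
    induction n with
    | zero => intro i hi; omega
    | succ n ih =>
      intro i hi
      rcases Nat.lt_or_ge i n with h | h
      · rw [hXs n, hf1 n (X n) i h]
        exact ih i h
      · have : i = n := by omega
        subst this; rfl
  refine ⟨fun n => (X (n + 1)).1 n, V_approx fun n => ⟨(X n).1, (X n).2, fun i hi => hagree n i hi⟩,
    fun y hy => ?_⟩
  rw [lexLE_iff]
  intro n hn
  have h1 := hf2 n (X n) y hy (fun i hi => by rw [hn i hi, hagree n i hi])
  rw [← hXs n] at h1
  exact h1

/-! Words read along a sequence. -/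

/-- The word of length `n` at position `k` in `x`. -/
def seg (x : Seq M) (k n : ℕ) : List (Fin (M + 1)) := (List.range n).map (fun i => x (k + i))

@[simp] lemma length_seg (x : Seq M) (k n : ℕ) : (seg x k n).length = n := by simp [seg]

lemma seg_succ (x : Seq M) (k n : ℕ) : seg x k (n + 1) = seg x k n ++ [x (k + n)] := by
  simp [seg, List.range_succ]

lemma seg_add (x : Seq M) (k a b : ℕ) : seg x k (a + b) = seg x k a ++ seg x (k + a) b := by
  induction b with
  | zero => simp [seg]
  | succ b ih =>
    rw [← Nat.add_assoc, seg_succ, ih, seg_succ, List.append_assoc, Nat.add_assoc]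

lemma getElem?_seg (x : Seq M) (k : ℕ) {n i : ℕ} (h : i < n) : (seg x k n)[i]? = some (x (k + i)) := by
  simp [seg, h]

lemma pre_eq_seg (β : Bool → ℕ → Fin (M + 1)) (ε : Bool) (r : ℕ) : pre β ε r = seg (β ε) 0 r := by
  simp [pre, seg]

lemma seg_congr {x y : Seq M} {k l n : ℕ} (h : ∀ i < n, x (k + i) = y (l + i)) :
    seg x k n = seg y l n := by
  apply List.map_congr_left
  intro i hi
  exact h i (List.mem_range.mp hi)

lemma of_suffix {β : Bool → ℕ → Fin (M + 1)} {x : Seq M} {k n r : ℕ} {ε : Bool}
    (h : pre β ε r <:+ seg x k n) : r ≤ n ∧ ∀ i < r, x (k + (n - r) + i) = β ε i := by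
  have hl := h.length_le
  simp only [length_pre, length_seg] at hl
  refine ⟨hl, fun i hi => ?_⟩
  rw [List.suffix_iff_eq_drop] at h
  have h1 : (pre β ε r)[i]? = some (β ε i) := by simp [pre, hi]
  rw [h, List.getElem?_drop, length_pre, length_seg, getElem?_seg x k (by omega)] at h1
  have h2 := Option.some.inj h1
  rw [← h2]
  congr 1; omega

/-- Signed lexicographic order. -/
def OL (ε : Bool) (x y : Seq M) : Prop := ∀ n, (∀ i < n, x i = y i) → ole ε (x n) (y n)

lemma OL_true {x y : Seq M} : OL true x y ↔ LexLE x y := by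
  rw [lexLE_iff]
  simp [OL, ole]

lemma OL_false {x y : Seq M} : OL false x y ↔ LexLE y x := by
  rw [lexLE_iff]
  simp only [OL, ole, Bool.false_eq_true, if_false]
  exact forall_congr' fun n => ⟨fun h hn => h fun i hi => (hn i hi).symm,
    fun h hn => h fun i hi => (hn i hi).symm⟩

lemma Lang_seg {β : Bool → ℕ → Fin (M + 1)} {x : Seq M}
    (hx : ∀ ε k, OL ε (fun i => x (k + i)) (β ε)) (k n : ℕ) : Lang β (seg x k n) := by
  induction n with
  | zero => simpa [seg] using Lang_nil β
  | succ n ih =>
    rw [seg_succ, Lang_concat]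
    refine ⟨ih, fun ε r hr => ?_⟩
    obtain ⟨h1, h2⟩ := of_suffix hr
    have h3 := hx ε (k + (n - r)) r h2
    have e : k + (n - r) + r = k + n := by omega
    simp only [e] at h3
    exact h3

lemma OL_of_Lang {β : Bool → ℕ → Fin (M + 1)} {x : Seq M}
    (hx : ∀ n, Lang β (seg x 0 n)) (ε : Bool) (k : ℕ) : OL ε (fun i => x (k + i)) (β ε) := by
  intro n hn
  have h1 := hx (k + n + 1)
  rw [seg_succ, Lang_concat] at h1
  have h2 : pre β ε n <:+ seg x 0 (k + n) := by
    rw [seg_add, pre_eq_seg]
    have h3 : seg (β ε) 0 n = seg x (0 + k) n := by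
      apply seg_congr
      intro i hi
      have := hn i hi
      simp only [Nat.zero_add]
      exact this.symm
    rw [h3]
    exact List.suffix_append _ _
  have h4 := h1.2 ε n h2
  rw [Nat.zero_add] at h4
  exact h4

lemma extend {β : Bool → ℕ → Fin (M + 1)} (H : Good β) {u : List (Fin (M + 1))}
    (hu : Lang β u) : ∃ x : Seq M, (∀ n, Lang β (seg x 0 n)) ∧ seg x 0 u.length = u := by
  obtain ⟨ε, hε⟩ := st_eq_pre β (u := u)
  set k := idx β u with hk
  refine ⟨fun i => if h : i < u.length then u[i] else β ε (k + (i - u.length)), ?_, ?_⟩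
  swap
  · apply List.ext_getElem (by simp)
    intro i h1 h2
    simp [seg, h2]
  · intro n
    have hp : seg (fun i => if h : i < u.length then u[i] else β ε (k + (i - u.length))) 0 u.length
        = u := by
      apply List.ext_getElem (by simp)
      intro i h1 h2
      simp [seg, h2]
    have h1 : seg (fun i => if h : i < u.length then u[i] else β ε (k + (i - u.length))) 0
        (u.length + n) = u ++ seg (β ε) k n := by
      rw [seg_add, hp]
      congr 1
      apply seg_congr
      intro i hi
      simp
    have h2 : Lang β (u ++ seg (β ε) k n) := by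
      apply Lang_congr β hu (u := pre β ε k)
      · rw [st_pre, hε]
      · have h3 : pre β ε k ++ seg (β ε) k n = pre β ε (k + n) := by
          rw [pre_eq_seg, pre_eq_seg, seg_add, Nat.zero_add]
        rw [h3]
        exact H.lang ε _
    rw [← h1] at h2
    apply Lang_of_prefix β h2
    rw [Nat.add_comm u.length n, seg_add]
    exact List.prefix_append _ _

lemma Occurs.of_seg {Y : Set (Seq M)} {x : Seq M} (hx : x ∈ Y) (k n : ℕ) : Occurs Y (seg x k n) :=
  ⟨x, hx, k, by simp [seg]⟩

lemma Occurs.to_seg {Y : Set (Seq M)} {u : List (Fin (M + 1))} (h : Occurs Y u) :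
    ∃ x ∈ Y, ∃ k, u = seg x k u.length := h

lemma Occurs.of_infix {Y : Set (Seq M)} {u v : List (Fin (M + 1))} (h : Occurs Y v)
    (huv : u <:+: v) : Occurs Y u := by
  obtain ⟨x, hx, k, hv⟩ := h.to_seg
  obtain ⟨s, t, hst⟩ := huv
  have h1 : u = seg x (k + s.length) u.length := by
    apply List.ext_getElem?
    intro i
    rcases Nat.lt_or_ge i u.length with hi | hi
    · rw [getElem?_seg _ _ hi]
      have h2 : v[s.length + i]? = some (x (k + (s.length + i))) := by
        conv_lhs => rw [hv]
        apply getElem?_seg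
        rw [← hst]; simp; omega
      rw [← hst, List.getElem?_append_left (by simp; omega),
        List.getElem?_append_right (by omega)] at h2
      rw [Nat.add_sub_cancel_left] at h2
      rw [h2, Nat.add_assoc]
    · rw [List.getElem?_eq_none hi, List.getElem?_eq_none (by simpa using hi)]
  rw [h1]
  exact Occurs.of_seg hx _ _

lemma ncard_B (Y : Set (Seq M)) (n : ℕ) : (B Y n).ncard = cnt (Occurs Y) n := by
  classical
  rw [cnt, ← Set.ncard_coe_finset]
  congr 1
  ext u
  simp [B]

/-- Every transitive symmetric lexicographic subshift is entropy minimal. -/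
theorem result (M : ℕ) (α : Seq M) (hT : IsTransitive (V α)) : IsEntropyMinimal (V α) := by
  rintro X ⟨hne, hcl, hinv⟩ hXV
  have hneV : (V α).Nonempty := hne.mono hXV.subset
  obtain ⟨b, hb, hmax⟩ := exists_max hneV
  set β : Bool → ℕ → Fin (M + 1) := fun ε => if ε then b else reflect b with hβ
  have hβt : β true = b := rfl
  have hβf : β false = reflect b := rfl
  have hbα : LexLE b α := by
    have := (mem_V.mp hb 0).2
    simpa using this
  have hV : ∀ x, x ∈ V α ↔ ∀ ε k, OL ε (fun i => x (k + i)) (β ε) := by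
    intro x
    constructor
    · intro hx ε k
      have hxk := V_shift hx k
      cases ε
      · rw [OL_false, hβf]
        have h1 := (hmax _ (V_reflect hxk)).reflect
        rwa [reflect_reflect] at h1
      · rw [OL_true, hβt]
        exact hmax _ hxk
    · intro h
      rw [mem_V]
      intro k
      have h1 := h false k
      have h2 := h true k
      rw [OL_false, hβf] at h1
      rw [OL_true, hβt] at h2
      exact ⟨hbα.reflect.trans h1, h2.trans hbα⟩
  -- the degenerate case
  by_cases hdeg : (b 0).rev = b 0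
  · exfalso
    have hconst : ∀ x ∈ V α, ∀ k, x k = b 0 := by
      intro x hx k
      have h1 := (hV x).mp hx false k 0 (fun i hi => by omega)
      have h2 := (hV x).mp hx true k 0 (fun i hi => by omega)
      rw [hβf] at h1
      rw [hβt] at h2
      simp only [ole, Bool.false_eq_true, if_false, if_true, reflect, Nat.add_zero, hdeg] at h1 h2
      exact le_antisymm h2 h1
    apply hXV.not_subset
    intro x hx
    obtain ⟨y, hy⟩ := hne
    have : x = y := by
      funext k
      rw [hconst x hx k, hconst y (hXV.subset hy) k]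
    rw [this]; exact hy
  -- the extreme sequences are good
  have hrev : ∀ ε n, β (!ε) n = (β ε n).rev := by
    intro ε n
    cases ε
    · simp [hβ, reflect]
    · simp [hβ, reflect]
  have hβV : ∀ ε, β ε ∈ V α := by
    intro ε
    cases ε
    · exact V_reflect hb
    · exact hb
  have hlt0 : (b 0).rev < b 0 := by
    have h1 := lexLE_iff.mp (hmax _ (V_reflect hb)) 0 (fun i hi => by omega)
    exact lt_of_le_of_ne h1 hdeg
  have H : Good β := by
    refine ⟨hrev, fun ε n => ?_, fun ε => ?_⟩
    · rw [pre_eq_seg]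
      exact Lang_seg ((hV _).mp (hβV ε)) 0 n
    · cases ε
      · simp [hβ, olt, reflect, hlt0]
      · simp [hβ, olt, reflect, hlt0]
  have hocc : ∀ u, Occurs (V α) u ↔ Lang β u := by
    intro u
    constructor
    · intro h
      obtain ⟨x, hx, k, hu⟩ := h.to_seg
      rw [hu]
      exact Lang_seg ((hV x).mp hx) k _
    · intro h
      obtain ⟨x, hx1, hx2⟩ := extend H h
      have hx : x ∈ V α := (hV x).mpr fun ε k => OL_of_Lang hx1 ε k
      rw [← hx2]
      exact Occurs.of_seg hx _ _
  have hTr : Trans β := by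
    intro u w hu hw
    obtain ⟨v, hv⟩ := hT u w ((hocc u).mpr hu) ((hocc w).mpr hw)
    exact ⟨v, (hocc _).mp hv⟩
  have hSub : Sub β (Occurs X) := by
    refine ⟨fun u hu => ?_, fun u v hv huv => hv.of_infix huv, fun n => ?_⟩
    · obtain ⟨x, hx, k, hu'⟩ := hu
      exact (hocc u).mp ⟨x, hXV.subset hx, k, hu'⟩
    · obtain ⟨y, hy⟩ := hne
      exact ⟨seg y 0 n, Occurs.of_seg hy 0 n, by simp⟩
  -- a word which does not occur in `X`
  obtain ⟨w, hw, hXw⟩ : ∃ w, Lang β w ∧ ¬ Occurs X w := by
    obtain ⟨x, hx, hxX⟩ := Set.not_subset.mp hXV.not_subset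
    have hopen : IsOpen Xᶜ := hcl.isOpen_compl
    rw [isOpen_pi_iff] at hopen
    obtain ⟨I, U, hU1, hU2⟩ := hopen x hxX
    refine ⟨seg x 0 (I.sup id + 1), (hocc _).mp (Occurs.of_seg hx _ _), fun hoc => ?_⟩
    obtain ⟨y, hy, k, hyk⟩ := hoc.to_seg
    rw [length_seg] at hyk
    have hyk' : (fun i => y (k + i)) ∈ X := by
      have h1 : ∀ k, shift^[k] y ∈ X := by
        intro k
        induction k with
        | zero => simpa using hy
        | succ k ih =>
          rw [Function.iterate_succ_apply']
          exact hinv _ ih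
      have h2 : shift^[k] y = fun i => y (k + i) := funext fun i => shift_iter k y i
      rw [← h2]; exact h1 k
    have hmem : (fun i => y (k + i)) ∈ Xᶜ := by
      apply hU2
      intro i hi
      have hiI : i < I.sup id + 1 := by
        have : id i ≤ I.sup id := Finset.le_sup (f := id) hi
        simp only [id] at this
        omega
      have h1 : (seg x 0 (I.sup id + 1))[i]? = (seg y k (I.sup id + 1))[i]? := by rw [hyk]
      rw [getElem?_seg _ _ hiI, getElem?_seg _ _ hiI, Nat.zero_add] at h1
      have h2 : y (k + i) = x i := (Option.some.inj h1).symm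
      simp only [h2]
      exact (hU1 i hi).2
    exact hmem hyk'
  obtain ⟨hX, hL, h1, h2, h3⟩ := compare H hTr hSub hw hXw
  refine ⟨hX, hL, ?_, ?_, h3⟩
  · simp only [HasEntropy, ncard_B]
    exact h1
  · have h4 : Occurs (V α) = Lang β := funext fun u => propext (hocc u)
    simp only [HasEntropy, ncard_B, h4]
    exact h2

end Pool.Agent.Results.MP_0ad9bc_an.EntropyMinimal
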